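import Pool.Agent.H55.GA.EIA

/-!
Row OCA of the board ga (page H34_GA.md): the operators `opCu` (helper55). Model:
Pool/Agent/H67/GU/OCU.lean (helper67).
-/

set_option autoImplicit false

namespace Pool.Agent.H55.GA

open MeasureTheory Pool.Agent.H34.GM Pool.Agent.H34.GZ Pool.Agent.H34.GU Pool.Agent.H34.GA

theorem pf_OCA : T_MSR → T_HAR → T_UNZ → T_EZA → T_ALU → T_ALZ → T_OCA := by
  intro hM hH hUNZ hEZ1 hALU hALZ m N _ T D hS F lam hF Φ hΦ y g x hg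
  have hm1 : 1 ≤ m := hS.one_le
  obtain ⟨⟨⟨hR1, hRm⟩, hRd⟩, -, -, -, hun, -, -⟩ :=
    hALZ m N hm1 hS.two_le
  have hac := (hALU m N hm1 hS.two_le).2.1
  have hun1 : ∀ γ : ZM m, IsUnit γ → γ.det.natAbs = 1 := fun γ hγ => (hun γ).1 hγ
  have hUN := (hUNZ m hm1 D hS.dom).2
  have hmz : (m : ℝ) ≠ 0 := by positivity
  have hdm : ∀ z ∈ D, (mt z).det ≠ 0 := by
    intro z hz h0
    have h1 := (hS.dom.shell z hz).1
    unfold aN at h1
    rw [h0, abs_zero, Real.zero_rpow (one_div_ne_zero hmz)] at h1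
    norm_num at h1
  have hT1 : ∀ n ∈ Finset.Icc 1 ⌊y⌋₊, ∀ ρ ∈ T n,
      1 ≤ n ∧ ρ.det.natAbs = n ∧ (cR ρ).det ≠ 0 ∧ (n : ℝ) ≤ y := by
    intro n hn ρ hρ
    obtain ⟨h1, h1'⟩ := Finset.mem_Icc.mp hn
    have h2 := hS.reps.mem n h1 ρ hρ
    refine ⟨h1, h2, ?_, ?_⟩
    · intro h3
      have h4 := (hRd ρ).2
      rw [h3, abs_zero, h2] at h4
      have h5 : (1 : ℝ) ≤ n := by exact_mod_cast h1
      linarith
    · exact (Nat.le_floor_iff' (by omega)).1 h1'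
  have hfi : ∀ n ∈ Finset.Icc 1 ⌊y⌋₊, ∀ ρ ∈ T n,
      IntegrableOn (fun z : V m => Φ (kk (aN (cR ρ)) (mt z) (cR ρ) g) * F (mt z) (ac N ρ x))
        (Shell m) (hm m) ∧
      ∫ z in Shell m, Φ (kk (aN (cR ρ)) (mt z) (cR ρ) g) * F (mt z) (ac N ρ x) ∂(hm m) =
        Rr Φ 1 F (cR ρ * g) (ac N ρ x) := by
    intro n hn ρ hρ
    obtain ⟨h1, h3, h4, -⟩ := hT1 n hn ρ hρ
    have h6 := ei_aN_pos h4
    have h5 := hEZ1 m N T D hS F lam hF Φ hΦ (cR ρ) g (aN (cR ρ)) (ac N ρ x) h4 hg h6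
    refine ⟨h5.1, ?_⟩
    rw [h5.2, mul_inv_cancel₀ h6.ne']
  have hfj : ∀ n ∈ Finset.Icc 1 ⌊y⌋₊, ∀ ρ ∈ T n,
      IntegrableOn (fun z : V m => if y / 2 < (n : ℝ) then
        Φ (kk (aN (cR ρ)) (mt z) (cR ρ) g) * F (mt z) (ac N ρ x) else 0)
        (Shell m) (hm m) ∧
      ∫ z in Shell m, (if y / 2 < (n : ℝ) then
        Φ (kk (aN (cR ρ)) (mt z) (cR ρ) g) * F (mt z) (ac N ρ x) else 0) ∂(hm m) =
        (if y / 2 < (n : ℝ) then Rr Φ 1 F (cR ρ * g) (ac N ρ x) else 0) := by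
    intro n hn ρ hρ
    by_cases hc : y / 2 < (n : ℝ)
    · simp only [if_pos hc]
      exact hfi n hn ρ hρ
    · simp only [if_neg hc]
      exact ⟨integrable_zero _ _ _, integral_zero _ _⟩
  have hae : ∀ᵐ z ∂((hm m).restrict D), ∀ n ∈ Finset.Icc 1 ⌊y⌋₊, ∀ ρ ∈ T n,
      Summable fun γ : {γ : ZM m // IsUnit γ} => if y / 2 < (n : ℝ) then
        Φ (kk (aN (cR ρ)) (mt (fun i j => (cR γ.1 * mt z) i j)) (cR ρ) g) *
          F (mt (fun i j => (cR γ.1 * mt z) i j)) (ac N ρ x) else 0 := by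
    rw [Filter.eventually_all_finset]
    intro n hn
    rw [Filter.eventually_all_finset]
    intro ρ hρ
    exact (hUN _ (hfj n hn ρ hρ).1).2.1
  have hkey : ∀ᵐ z ∂((hm m).restrict D),
      ∑' α : ZM m, (if y / 2 < (α.det.natAbs : ℝ) ∧ (α.det.natAbs : ℝ) ≤ y then
        Φ (kk (aN (cR α)) (mt z) (cR α) g) * F (mt z) (ac N α x) else 0) =
      ∑ n ∈ Finset.Icc 1 ⌊y⌋₊, ∑ ρ ∈ T n, ∑' γ : {γ : ZM m // IsUnit γ},
        (if y / 2 < (n : ℝ) then
          Φ (kk (aN (cR ρ)) (mt (fun i j => (cR γ.1 * mt z) i j)) (cR ρ) g) *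
          F (mt (fun i j => (cR γ.1 * mt z) i j)) (ac N ρ x) else 0) := by
    filter_upwards [hae, ae_restrict_mem hS.dom.meas] with z hz hzD
    have hzd := hdm z hzD
    have hpt : ∀ n ∈ Finset.Icc 1 ⌊y⌋₊, ∀ ρ ∈ T n, ∀ γ : {γ : ZM m // IsUnit γ},
        (if y / 2 < (n : ℝ) then
          Φ (kk (aN (cR ρ)) (mt (fun i j => (cR γ.1 * mt z) i j)) (cR ρ) g) *
          F (mt (fun i j => (cR γ.1 * mt z) i j)) (ac N ρ x) else 0) =
        (if y / 2 < (((Ring.inverse γ.1 * ρ).det.natAbs : ℕ) : ℝ) ∧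
            (((Ring.inverse γ.1 * ρ).det.natAbs : ℕ) : ℝ) ≤ y then
          Φ (kk (aN (cR (Ring.inverse γ.1 * ρ))) (mt z) (cR (Ring.inverse γ.1 * ρ)) g) *
          F (mt z) (ac N (Ring.inverse γ.1 * ρ) x) else 0) := by
      intro n hn ρ hρ γ
      obtain ⟨h1, h2, h3, h4⟩ := hT1 n hn ρ hρ
      have hg1 := ei_inv γ.2
      have hd : (Ring.inverse γ.1 * ρ).det.natAbs = n := by
        rw [Matrix.det_mul, Int.natAbs_mul, hun1 _ hg1.1, one_mul, h2]
      have hdR : aN (cR (Ring.inverse γ.1 * ρ)) = aN (cR ρ) := by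
        unfold aN
        rw [(hRd _).2, (hRd _).2, hd, h2]
      rw [hd, hdR]
      by_cases hc : y / 2 < (n : ℝ)
      · rw [if_pos hc, if_pos ⟨hc, h4⟩]
        have e1 : mt (fun i j => (cR γ.1 * mt z) i j) = cR γ.1 * mt z := rfl
        have hdγ : |(cR γ.1).det| = 1 := by
          rw [(hRd γ.1).2, hun1 _ γ.2, Nat.cast_one]
        have e0 : (cR γ.1)⁻¹ = cR (Ring.inverse γ.1) := by
          apply Matrix.inv_eq_right_inv
          rw [← (hRm _ _).1, hg1.2.1, hR1]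
        rw [e1, ei_kk _ (mt z) (cR γ.1) (cR ρ) g hdγ, e0, ← (hRm _ _).1]
        have e2 : ac N ρ x = ac N γ.1 (ac N (Ring.inverse γ.1 * ρ) x) := by
          rw [← (hac _ _ _).1, ← mul_assoc, hg1.2.1, one_mul]
        rw [e2, hF.auto _ γ.2 _ _ hzd]
      · rw [if_neg hc, if_neg (fun h => hc h.1)]
    rw [ei_sum hS.reps hun1 ⌊y⌋₊
      (fun α => if y / 2 < (α.det.natAbs : ℝ) ∧ (α.det.natAbs : ℝ) ≤ y then
        Φ (kk (aN (cR α)) (mt z) (cR α) g) * F (mt z) (ac N α x) else 0)]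
    · apply Finset.sum_congr rfl
      intro n hn
      apply Finset.sum_congr rfl
      intro ρ hρ
      exact tsum_congr fun γ => (hpt n hn ρ hρ γ).symm
    · intro α hα
      have h1 : ¬ (y / 2 < (α.det.natAbs : ℝ) ∧ (α.det.natAbs : ℝ) ≤ y) := by
        rw [hα, Int.natAbs_zero, Nat.cast_zero]
        rintro ⟨h1, h2⟩
        linarith
      exact if_neg h1
    · intro α hne
      have h1 : y / 2 < (α.det.natAbs : ℝ) ∧ (α.det.natAbs : ℝ) ≤ y := by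
        by_contra h2
        exact hne (if_neg h2)
      exact Nat.le_floor h1.2
    · intro n hn ρ hρ
      refine (hz n hn ρ hρ).congr ?_
      intro γ
      exact hpt n hn ρ hρ γ
  unfold opCu
  rw [integral_congr_ae hkey, integral_finsetSum, DF, Finset.sum_mul]
  · apply Finset.sum_congr rfl
    intro n hn
    rw [integral_finsetSum]
    · have h1 : ∀ ρ ∈ T n, ∫ z in D, ∑' γ : {γ : ZM m // IsUnit γ},
          (if y / 2 < (n : ℝ) then
            Φ (kk (aN (cR ρ)) (mt (fun i j => (cR γ.1 * mt z) i j)) (cR ρ) g) *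
            F (mt (fun i j => (cR γ.1 * mt z) i j)) (ac N ρ x) else 0) ∂(hm m) =
          (if y / 2 < (n : ℝ) then Rr Φ 1 F (cR ρ * g) (ac N ρ x) else 0) := by
        intro ρ hρ
        rw [← (hfj n hn ρ hρ).2]
        exact (hUN _ (hfj n hn ρ hρ).1).2.2.symm
      rw [Finset.sum_congr rfl h1]
      by_cases hc : y / 2 < (n : ℝ)
      · simp only [hc, true_and, if_true]
        rw [if_pos (Nat.coprime_one_right n)]
        exact rr_hecke hM hH hm1 hF hΦ one_pos (Finset.mem_Icc.mp hn).1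
          (fun ρ hρ => (hT1 n hn ρ hρ).2.2.1) hg x
      · rw [if_neg (fun h => hc h.1), zero_mul]
        apply Finset.sum_eq_zero
        intro ρ hρ
        exact if_neg hc
    · intro ρ hρ
      exact (hUN _ (hfj n hn ρ hρ).1).1
  · intro n hn
    apply integrable_finsetSum
    intro ρ hρ
    exact (hUN _ (hfj n hn ρ hρ).1).1

end Pool.Agent.H55.GA
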